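import Pool.Agent.helper21.BEY.SpecB

/-! Row bey:EMS: the smoothed zeta sum at a zero. -/

set_option autoImplicit false

open Complex MeasureTheory

namespace Pool.Agent.BEY

open Pool.Agent.helper84.DM Pool.Agent.helper78.ED Pool.Agent.DH Pool.Agent.LDH

theorem EMS_Icc (N : ℕ) : Finset.Icc 1 N = Finset.Ioc 0 N := by
  ext n
  simp only [Finset.mem_Icc, Finset.mem_Ioc]
  omega

theorem EMS_num1 {T c β γ : ℝ} (hT : 2 ≤ T) (hc1 : 1 ≤ c) (hc2 : c ≤ 4 * T ^ 2) (hβ : 3 / 4 ≤ β)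
    (hγ : T ≤ γ) : c ^ (1 - β) / γ ≤ 2 * T ^ (-(1 / 2) : ℝ) := by
  have hT0 : 0 < T := by linarith
  have h1 : c ^ (1 - β) ≤ c ^ (1 / 4 : ℝ) := Real.rpow_le_rpow_of_exponent_le hc1 (by linarith)
  have h2 : c ^ (1 / 4 : ℝ) ≤ (4 * T ^ 2) ^ (1 / 4 : ℝ) :=
    Real.rpow_le_rpow (by linarith) hc2 (by norm_num)
  have h3 : (4 * T ^ 2) ^ (1 / 4 : ℝ) = (2 * T) ^ (1 / 2 : ℝ) := by
    have : 4 * T ^ 2 = (2 * T) ^ (2 : ℝ) := by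
      rw [Real.rpow_two]; ring
    rw [this, ← Real.rpow_mul (by positivity)]
    norm_num
  have h4 : (2 * T) ^ (1 / 2 : ℝ) ≤ 2 * T ^ (1 / 2 : ℝ) := by
    rw [Real.mul_rpow (by norm_num) hT0.le]
    refine mul_le_mul_of_nonneg_right ?_ (Real.rpow_nonneg hT0.le _)
    calc (2 : ℝ) ^ (1 / 2 : ℝ) ≤ (2 : ℝ) ^ (1 : ℝ) :=
          Real.rpow_le_rpow_of_exponent_le (by norm_num) (by norm_num)
      _ = 2 := Real.rpow_one 2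
  have h5 : T ^ (1 / 2 : ℝ) = T ^ (-(1 / 2) : ℝ) * T := by
    rw [← Real.rpow_add_one hT0.ne']
    norm_num
  rw [div_le_iff₀ (by linarith)]
  have h6 : 0 ≤ T ^ (-(1 / 2) : ℝ) := Real.rpow_nonneg hT0.le _
  calc c ^ (1 - β) ≤ 2 * T ^ (1 / 2 : ℝ) := by linarith
    _ = 2 * T ^ (-(1 / 2) : ℝ) * T := by rw [h5]; ring
    _ ≤ 2 * T ^ (-(1 / 2) : ℝ) * γ := mul_le_mul_of_nonneg_left hγ (by positivity)

theorem EMS_num2 {T c β γ : ℝ} (hT : 2 ≤ T) (hc1 : T ^ 2 / 2 ≤ c) (hβ : 3 / 4 ≤ β)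
    (hγ : γ ≤ 2 * T) : γ * c ^ (-β) ≤ 4 * T ^ (-(1 / 2) : ℝ) := by
  have hT0 : 0 < T := by linarith
  have hc0 : 1 ≤ c := by nlinarith
  have h1 : c ^ (-β) ≤ c ^ (-(3 / 4) : ℝ) := Real.rpow_le_rpow_of_exponent_le hc0 (by linarith)
  have h2 : c ^ (-(3 / 4) : ℝ) ≤ (T ^ 2 / 2) ^ (-(3 / 4) : ℝ) :=
    Real.rpow_le_rpow_of_nonpos (by positivity) hc1 (by norm_num)
  have h3 : (T ^ 2 / 2) ^ (-(3 / 4) : ℝ) ≤ 2 * T ^ (-(3 / 2) : ℝ) := by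
    rw [Real.div_rpow (by positivity) (by norm_num), ← Real.rpow_two, ← Real.rpow_mul hT0.le,
      div_eq_mul_inv, ← Real.rpow_neg (by norm_num), mul_comm]
    have e : (2 : ℝ) * -(3 / 4) = -(3 / 2) := by norm_num
    rw [e]
    refine mul_le_mul_of_nonneg_right ?_ (Real.rpow_nonneg hT0.le _)
    calc (2 : ℝ) ^ (-(-(3 / 4) : ℝ)) ≤ (2 : ℝ) ^ (1 : ℝ) :=
          Real.rpow_le_rpow_of_exponent_le (by norm_num) (by norm_num)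
      _ = 2 := Real.rpow_one 2
  have h4 : T * T ^ (-(3 / 2) : ℝ) = T ^ (-(1 / 2) : ℝ) := by
    rw [mul_comm, ← Real.rpow_add_one hT0.ne']
    norm_num
  have h5 : 0 ≤ c ^ (-β) := Real.rpow_nonneg (by linarith) _
  calc γ * c ^ (-β) ≤ 2 * T * c ^ (-β) := mul_le_mul_of_nonneg_right hγ h5
    _ ≤ 2 * T * (2 * T ^ (-(3 / 2) : ℝ)) :=
        mul_le_mul_of_nonneg_left (h1.trans (h2.trans h3)) (by positivity)
    _ = 4 * (T * T ^ (-(3 / 2) : ℝ)) := by ring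
    _ = 4 * T ^ (-(1 / 2) : ℝ) := by rw [h4]

theorem EMS (hEM : EM_stmt) (hABL : ABL_stmt) (hPHF : PHF_stmt) : EMS_stmt := by
  obtain ⟨C, hC, hE⟩ := hEM
  obtain ⟨hp1, -, hpb, -, -, -, -, -, hpv, -⟩ := hPHF
  refine ⟨30 * C, by positivity, ?_⟩
  intro T X ρ hT hX1 hX2 hζ hβ1 hβ2 hγ1 hγ2
  have hT0 : 0 < T := by linarith
  have hX0 : 4 ≤ X := by nlinarith
  have hE0 : 0 ≤ T ^ (-(1 / 2) : ℝ) := Real.rpow_nonneg hT0.le _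
  obtain ⟨N₀, hN₀⟩ : ∃ N₀ : ℕ, N₀ = ⌊X⌋₊ := ⟨_, rfl⟩
  obtain ⟨N, hN⟩ : ∃ N : ℕ, N = ⌊2 * X⌋₊ := ⟨_, rfl⟩
  have hN₀X : (N₀ : ℝ) ≤ X := by rw [hN₀]; exact Nat.floor_le (by linarith)
  have hN₀X' : X < N₀ + 1 := by rw [hN₀]; exact Nat.lt_floor_add_one X
  have hNX : (N : ℝ) ≤ 2 * X := by rw [hN]; exact Nat.floor_le (by linarith)
  have hle : N₀ ≤ N := by
    rw [hN₀, hN]
    exact Nat.floor_le_floor (by linarith)
  have hS : ∀ c : ℕ, N₀ ≤ c → c ≤ N →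
      ‖∑ n ∈ Finset.Ioc 0 c, (n : ℂ) ^ (-ρ)‖ ≤ 6 * C * T ^ (-(1 / 2) : ℝ) := by
    intro c hc1 hc2
    have hc1' : (N₀ : ℝ) ≤ c := by exact_mod_cast hc1
    have hc2' : (c : ℝ) ≤ N := by exact_mod_cast hc2
    have hcX : X / 2 ≤ c := by linarith
    have hc : 1 ≤ c := by
      have : (1 : ℝ) ≤ c := by linarith
      exact_mod_cast this
    have h1 := hE ρ c hζ (by linarith) hβ2 (by linarith) hc
    rw [EMS_Icc] at h1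
    refine h1.trans ?_
    have h2 := EMS_num1 (c := (c : ℝ)) hT (by linarith) (by linarith) hβ1 hγ1
    have h3 := EMS_num2 (c := (c : ℝ)) hT (by linarith) hβ1 hγ2
    calc C * ((c : ℝ) ^ (1 - ρ.re) / ρ.im + ρ.im * (c : ℝ) ^ (-ρ.re)) ≤
        C * (2 * T ^ (-(1 / 2) : ℝ) + 4 * T ^ (-(1 / 2) : ℝ)) :=
          mul_le_mul_of_nonneg_left (add_le_add h2 h3) hC.le
      _ = 6 * C * T ^ (-(1 / 2) : ℝ) := by ring
  have hpart : ∀ c, N₀ ≤ c → c ≤ N →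
      ‖∑ n ∈ Finset.Ioc N₀ c, (n : ℂ) ^ (-ρ)‖ ≤ 12 * C * T ^ (-(1 / 2) : ℝ) := by
    intro c hc1 hc2
    have h1 := Finset.sum_Ioc_consecutive (fun n : ℕ => (n : ℂ) ^ (-ρ)) (Nat.zero_le N₀) hc1
    have h2 : ∑ n ∈ Finset.Ioc N₀ c, (n : ℂ) ^ (-ρ) =
        ∑ n ∈ Finset.Ioc 0 c, (n : ℂ) ^ (-ρ) - ∑ n ∈ Finset.Ioc 0 N₀, (n : ℂ) ^ (-ρ) := by
      rw [← h1]; ring
    rw [h2]
    refine (norm_sub_le _ _).trans ?_
    have h3 := hS c hc1 hc2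
    have h4 := hS N₀ le_rfl hle
    linarith
  have hAB := hABL (fun n => phi ((n : ℝ) / X)) (fun n => (n : ℂ) ^ (-ρ)) N₀ N _ hle hpart
  have hv : |phi ((N : ℝ) / X)| + ∑ n ∈ Finset.Ioo N₀ N,
      |phi (((n + 1 : ℕ) : ℝ) / X) - phi ((n : ℝ) / X)| ≤ 2 := by
    have h1 := hpv X N₀ N (by linarith)
    have h2 := hpb ((N : ℝ) / X)
    rw [abs_of_nonneg h2.1]
    linarith
  have hsplit : Ph X ρ = ∑ n ∈ Finset.Ioc 0 N₀, (n : ℂ) ^ (-ρ) +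
      ∑ n ∈ Finset.Ioc N₀ N, ((phi ((n : ℝ) / X) : ℝ) : ℂ) * (n : ℂ) ^ (-ρ) := by
    unfold Ph
    rw [← hN, EMS_Icc, ← Finset.sum_Ioc_consecutive _ (Nat.zero_le N₀) hle]
    refine congrArg₂ (· + ·) ?_ rfl
    refine Finset.sum_congr rfl fun n hn => ?_
    have h1 : (n : ℝ) ≤ N₀ := by exact_mod_cast (Finset.mem_Ioc.1 hn).2
    have h2 : (n : ℝ) / X ≤ 1 := by
      rw [div_le_one (by linarith)]
      linarith
    rw [hp1 _ h2]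
    simp
  rw [hsplit]
  refine (norm_add_le _ _).trans ?_
  have h1 := hS N₀ le_rfl hle
  have h2 : 12 * C * T ^ (-(1 / 2) : ℝ) * (|phi ((N : ℝ) / X)| + ∑ n ∈ Finset.Ioo N₀ N,
      |phi (((n + 1 : ℕ) : ℝ) / X) - phi ((n : ℝ) / X)|) ≤ 12 * C * T ^ (-(1 / 2) : ℝ) * 2 :=
    mul_le_mul_of_nonneg_left hv (by positivity)
  have h3 := hAB.trans h2
  linarith

end Pool.Agent.BEY
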