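import Pool.Agent.helper21.BEY.SpecB
import Pool.Agent.helper26.DH.TAY
import Pool.Agent.helper18.LDH.KL
import Pool.Agent.helper63.LDH.ABL
import Pool.Agent.helper50.LDH.EM
import Pool.Agent.helper72.LDH.SEP
import Pool.Agent.helper55.LDH.TAZ
import Pool.Agent.helper49.LDH.PWB
import Pool.Agent.helper42.LDH.LVS
import Pool.Agent.helper44.LDH.WTJ
import Pool.Agent.helper68.BEY.PHF
import Pool.Agent.helper31.BEY.WCB
import Pool.Agent.helper21.BEY.EMS
import Pool.Agent.helper76.BEY.MOS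
import Pool.Agent.helper84.BEY.TEL
import Pool.Agent.helper76.BEY.DTS
import Pool.Agent.helper38.BEY.KLS
import Pool.Agent.helper59.BEY.TAS
import Pool.Agent.helper76.BEY.CPB
import Pool.Agent.helper60.BEY.NUB
import Pool.Agent.helper66.BEY.CLI
import Pool.Agent.helper68.BEY.NUC
import Pool.Agent.helper27.BEY.CLT
import Pool.Agent.helper13.BEY.COB
import Pool.Agent.helper20.BEY.FIB

/-!
# Project BEY (MP_4467b5_nt), block B: assembly

`bFIB`: the bound `N(σ, T) ≤ C T^((3/(2σ)) (1-σ) + ε)` for `σ > 3/4` from the large values estimate `LVZ_stmt` of block A.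
-/

set_option autoImplicit false

namespace Pool.Agent.BEY

open Pool.Agent.helper84.DM Pool.Agent.helper78.ED Pool.Agent.DH Pool.Agent.LDH

theorem bFIB (hLVZ : LVZ_stmt) : FIB_stmt := by
  have hPHF : PHF_stmt := PHF
  have hKL : KL_stmt := KL
  have hABL : ABL_stmt := ABL
  have hMOS : MOS_stmt := MOS hPHF
  have hDTS : DTS_stmt := DTS (EMS EM hABL hPHF) hMOS (TEL hPHF)
  have hCLI : CLI_stmt := CLI LVS CPB PWB NUB
  have hCLT : CLT_stmt := CLT hLVZ (WCB hPHF) (KLS hKL hABL hPHF) (TAS hPHF) NUC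
  exact FIB (COB SEP hDTS hMOS hCLI hCLT (TAZ Pool.Agent.DH.TAY) WTJ)

end Pool.Agent.BEY
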