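import Pool.Agent.helper5.BEY.Defs

/-!
# Project BEY (MP_4467b5_nt), block B: detection, class one, assembly

THEOREM (`FIB_stmt`). For `s₀ > 3/4`, `ε > 0` there is `C` such that for all `T ≥ 1`, `s₀ ≤ σ ≤ 1`: `N(σ, T) ≤ C T^((3/(2σ))(1-σ) + ε)`.

RULES. Row `XXX`: file `Pool/Agent/<seat>/BEY/XXX.lean`, `import Pool.Agent.helper21.BEY.SpecB` (plus library files named in the docstring),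
`set_option autoImplicit false`, `namespace Pool.Agent.BEY`, `open Pool.Agent.helper84.DM Pool.Agent.helper78.ED Pool.Agent.DH Pool.Agent.LDH`
(and `open Complex MeasureTheory` if you want), theorem line exactly as in the lock note (any other `_stmt` of this file or of `LDH` may be added as a
hypothesis, no circles). Auxiliary lemmas are prefixed `XXX_`. No straight double quotes, no convert / congr!. Land, note DONE + path, one line to helper21.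

MODELS. Most rows are ports of rows of project LDH (`Pool/Agent/*/LDH/*.lean`): KLS of KLZ, DTS of DTC, MOS of MOL, CPB of CPK, NUB of NUM, CLI of CL1, CLT of CL2,
COB of COR; TAS of `Pool/Agent/helper26/DH/TAY.lean`; FIB of `Pool/Agent/helper1/DH/FIN.lean`. Copy and adapt. `Y = T^(3/(8σ))`, `M_i = (4/3)^i Y`.
-/

set_option autoImplicit false

open Complex MeasureTheory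

namespace Pool.Agent.BEY

open Pool.Agent.helper84.DM Pool.Agent.helper78.ED Pool.Agent.DH Pool.Agent.LDH

/-- the smoothed zeta sum `∑ φ(n/X) n^(-s)` -/
noncomputable def Ph (X : ℝ) (s : ℂ) : ℂ :=
  ∑ n ∈ Finset.Icc 1 ⌊2 * X⌋₊, ((phi ((n : ℝ) / X) : ℝ) : ℂ) * (n : ℂ) ^ (-s)

/-- the smooth block `∑ ψ(n/M) n^(-s)` -/
noncomputable def Ps (M : ℝ) (s : ℂ) : ℂ :=
  ∑ n ∈ Finset.Icc 1 ⌊2 * M⌋₊, ((psi ((n : ℝ) / M) : ℝ) : ℂ) * (n : ℂ) ^ (-s)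

/-- the Taylor weights -/
noncomputable def wj (σ : ℝ) (j : ℕ) (x : ℝ) : ℝ := psi x * (x ^ (-σ) * Real.log x ^ j)

/-- coefficients of the product of the mollifier of length `D` and the smoothed zeta sum of length `Y` -/
noncomputable def cS (D : ℕ) (Y : ℝ) (k : ℕ) : ℂ :=
  ∑ m ∈ k.divisors, if m ≤ D then ((ArithmeticFunction.moebius m : ℤ) : ℂ) *
    ((phi (((k / m : ℕ) : ℝ) / Y) : ℝ) : ℂ) else 0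

/-! ## Part 1: the cutoff functions -/

/-- **PHF** (short/medium). uses: nothing. Facts on `phi`, `psi`. `Real.smoothTransition` is monotone (`Real.smoothTransition.monotone`), `0` for `x ≤ 0`, `1` for `x ≥ 1`, smooth. `psi ≥ 0`: for `x ≤ 0` both values are `1`, for `x ≥ 0` use
`3x/4 ≤ x`. `3/4 * 2 = 3/2`. Variation: `|psi a - psi b| ≤ |phi (3a/4) - phi (3b/4)| + |phi a - phi b|`, both antitone with values in `[0,1]`: the sums telescope. -/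
def PHF_stmt : Prop :=
  (∀ x, x ≤ 1 → phi x = 1) ∧ (∀ x, 3 / 2 ≤ x → phi x = 0) ∧ (∀ x, 0 ≤ phi x ∧ phi x ≤ 1) ∧
  Antitone phi ∧ (∀ x, 0 ≤ psi x ∧ psi x ≤ 1) ∧ (∀ x, x ≤ 1 → psi x = 0) ∧
  (∀ x, 2 ≤ x → psi x = 0) ∧ (∀ n : ℕ, ContDiff ℝ n psi) ∧
  (∀ (M : ℝ) (a b : ℕ), 0 < M → ∑ n ∈ Finset.Ioo a b,
    |phi (((n + 1 : ℕ) : ℝ) / M) - phi ((n : ℝ) / M)| ≤ 1) ∧
  ∀ (M : ℝ) (a b : ℕ), 0 < M → ∑ n ∈ Finset.Ioo a b,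
    |psi (((n + 1 : ℕ) : ℝ) / M) - psi ((n : ℝ) / M)| ≤ 2

/-- **WCB** (medium). uses: PHF_stmt. The weights `wj σ j` have three derivatives bounded uniformly in `σ ∈ [0, 1]` and `j`. Let `F p a j x = p x * (x^(-a) * log x ^ j)`, `p` smooth (all orders) and `0` outside `[1, 2]`. For ALL `x`:
`HasDerivAt (F p a j) (F (deriv p) a j x + j * F p (a+1) (j-1) x - a * F p (a+1) j x) x`: for `x > 0` the product rule; for `x < 1` both `F p a j` and the right side vanish near `x` (`p = 0`, `deriv p = 0` there). `deriv p` is again such a function (`0` outside `[1, 2]`: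
it is continuous and `p` vanishes on the open complement). So `iteratedDeriv i (wj σ j)`, `i ≤ 3` (`iteratedDeriv_succ`, functions equal everywhere), is a sum of at most `27` terms `± c * F (psi^(l)) (σ + m) (j - n)`, `c ≤ (j+1)^3 * 4^3`; `|F p a j' x| ≤ sup |p| * (log 2)^j'` for `a ≥ 0` (`1 ≤ x ≤ 2`,
`0 ≤ log x ≤ log 2 < 1`), `sup |psi^(l)| < ∞` (continuous, compact support: bounded on `Icc 1 2`). Finally `(j+1)^3 (log 2)^(j-3)` is bounded in `j` (`tendsto_pow_const_mul_const_pow_of_abs_lt_one`). `ContDiff ℝ 3`: `contDiff_iff_contDiffAt`, at `x > 0` a product of smooth functions, at `x < 1` locally `0`.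
Divide by `K` (`iteratedDeriv_const_mul` or the same formula). -/
def WCB_stmt : Prop := ∃ K : ℝ, 1 ≤ K ∧ ∀ (σ : ℝ) (j : ℕ), 0 ≤ σ → σ ≤ 1 → Wc 1 (fun x => wj σ j x / K)

/-! ## Part 2: detection -/

/-- **EMS** (medium). uses: EM_stmt, ABL_stmt, PHF_stmt. Let `N₀ = ⌊X⌋₊`, `N = ⌊2X⌋₊`, `S c = ∑ n ∈ Icc 1 c, n^(-ρ)`. `phi (n/X) = 1` for `n ≤ N₀`, so `Ph X ρ = S N₀ + ∑ n ∈ Ioc N₀ N, phi (n/X) n^(-ρ)`. For `N₀ ≤ c ≤ N`: `T²/2 ≤ X/2 ≤ c ≤ 4T²` and EM gives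
`‖S c‖ ≤ C (c^(1-β)/T + 2T c^(-β)) ≤ C (2 T^(-1/2) + 4 T^(-1/2))` (`c^(1-β) ≤ (4T²)^(1/4) ≤ 2 T^(1/2)`, `c^(-β) ≤ c^(-3/4) ≤ 2 T^(-3/2)`; `β = Re ρ ≥ 3/4`, `c ≥ 1`). ABL with `v n = phi (n/X)`, partial sums `S c - S N₀`, variation `≤ 1`, `|v N| ≤ 1`. Total `≤ 5 · 6 C T^(-1/2)`. -/
def EMS_stmt : Prop := ∃ C : ℝ, 0 < C ∧ ∀ (T X : ℝ) (ρ : ℂ), 2 ≤ T → T ^ 2 ≤ X → X ≤ 2 * T ^ 2 →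
  riemannZeta ρ = 0 → 3 / 4 ≤ ρ.re → ρ.re ≤ 1 → T ≤ ρ.im → ρ.im ≤ 2 * T →
  ‖Ph X ρ‖ ≤ C * T ^ (-(1 / 2) : ℝ)

/-- **MOS** (short/medium). uses: PHF_stmt. Port of MOL. Group the products `m n = k` (for `n ≤ k/m`, `n > ⌊2Y⌋₊`: `phi (n/Y) = 0`; `Y ≥ D ≥ 1`). `1 < k ≤ D`: every divisor `m` of `k` has `m ≤ D` and `(k/m)/Y ≤ 1`, so `cS D Y k = ∑ μ = 0`; `k = 1` gives `1`. `|phi| ≤ 1`, `‖μ‖ ≤ 1`. -/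
def MOS_stmt : Prop := ∀ (D : ℕ) (Y : ℝ), 1 ≤ D → (D : ℝ) ≤ Y → (∀ k, ‖cS D Y k‖ ≤ d k) ∧ ∀ s : ℂ,
  (∑ m ∈ Finset.Icc 1 D, ((ArithmeticFunction.moebius m : ℤ) : ℂ) * (m : ℂ) ^ (-s)) * Ph Y s =
  1 + ∑ k ∈ Finset.Ioc D (D * ⌊2 * Y⌋₊), cS D Y k * (k : ℂ) ^ (-s)

/-- **TEL** (short). uses: PHF_stmt. Telescoping. Induction on `J`; `Ph (4/3 * M) s - Ph M s = Ps M s` for `M > 0`: in `Ph (4/3 * M)` the terms with `n > ⌊2M⌋₊` vanish (`phi (3n/(4M)) = 0` for `n ≥ 2M`). -/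
def TEL_stmt : Prop := ∀ (Y : ℝ) (J : ℕ) (s : ℂ), 0 < Y →
  Ph ((4 / 3) ^ J * Y) s = Ph Y s + ∑ i ∈ Finset.range J, Ps ((4 / 3) ^ i * Y) s

/-- **DTS** (short/medium). uses: EMS_stmt, MOS_stmt, TEL_stmt. Port of DTC. `1 = M(ρ) Ph Y ρ - ∑ cS…`, `Ph Y ρ = Ph X ρ - ∑ Ps…` (`X = (4/3)^J Y`), `‖M(ρ)‖ ≤ D ≤ T^δ`, EMS; `C T^(δ-1/2) ≤ 1/2` for large `T`. (`Re ρ < 1`: `riemannZeta_ne_zero_of_one_le_re`.) -/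
def DTS_stmt : Prop := ∀ δ : ℝ, 0 < δ → δ ≤ 1 / 8 → ∃ T₀ : ℝ, ∀ T : ℝ, T₀ ≤ T →
  ∀ (D : ℕ) (Y : ℝ) (J : ℕ), 1 ≤ D → (D : ℝ) ≤ T ^ δ → (D : ℝ) ≤ Y → T ^ 2 ≤ (4 / 3) ^ J * Y →
  (4 / 3) ^ J * Y ≤ 2 * T ^ 2 → ∀ ρ : ℂ, riemannZeta ρ = 0 → 3 / 4 ≤ ρ.re → T ≤ ρ.im →
  ρ.im ≤ 2 * T →
    1 / 2 ≤ ‖∑ k ∈ Finset.Ioc D (D * ⌊2 * Y⌋₊), cS D Y k * (k : ℂ) ^ (-ρ)‖ +
      T ^ δ * ∑ i ∈ Finset.range J, ‖Ps ((4 / 3) ^ i * Y) ρ‖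

/-- **KLS** (medium). uses: KL_stmt, ABL_stmt, PHF_stmt. Port of KLZ for real `M ≥ T`. Let `N = ⌊M⌋₊`, `b = ⌊2M⌋₊`; only `N < n ≤ b` contribute (`psi (n/M) = 0` for `n ≤ M`). `n^(-iγ) = ee (f n)`, `f n = -(γ/2π) log n`; for `N < n < b`: `n > M ≥ T` and `n + 1 ≤ 2M`, so
`f (n+1) - f n` is increasing, at least `-(2T/2π)/n ≥ -1/π ≥ -1 + l` and at most `-(T/2π)/(n+1) ≤ -l` with `l = T/(4πM) ≤ 1/(4π)`: KL with `m = -1` gives `‖∑ n ∈ Ioc N c, n^(-iγ)‖ ≤ 8πM/T` for `N ≤ c ≤ b`. ABL with `v n = psi (n/M) n^(-β)`: `|v b| ≤ M^(-β)`, variation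
`≤ (2 + 1) M^(-β)` (`n ≥ M`; `n^(-β)` is decreasing, `psi` has variation `2`). So `≤ 32π M^(1-β)/T`. -/
def KLS_stmt : Prop := ∃ C : ℝ, 0 < C ∧ ∀ (T M : ℝ) (ρ : ℂ), 1 ≤ T → T ≤ M → 1 / 2 ≤ ρ.re →
  ρ.re ≤ 1 → T ≤ ρ.im → ρ.im ≤ 2 * T → ‖Ps M ρ‖ ≤ C * (M ^ (1 - ρ.re) / T)

/-- **TAS** (medium). uses: PHF_stmt. Port of TAY (`Pool/Agent/helper26/DH/TAY.lean`) for real `M` and the smooth weight. `x = Re ρ - σ ∈ [0, 1/2]`, `u n = log (n/M) ∈ [0, log 2] ⊂ [0, 1]` if `psi (n/M) ≠ 0`. `n^(-ρ) = M^(-σ-x) (n/M)^(-σ) e^(-x u n) n^(-iγ)`, so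
`M^(σ+x) Ps M ρ = ∑ j < J, ((-x)^j/j!) Sz (wj σ j) M γ + E`, `J = ⌊16 log T⌋₊ + 1`, `|E| ≤ 2M · 2 (1/2)^J ≤ 4 T² T^(-11)` (`16 log 2 > 11`). If all `‖Sz‖ < M^σ T^(-2κ)` then `M^σ T^(-κ) ≤ M^(σ+x) ‖Ps M ρ‖ ≤ 2 M^σ T^(-2κ) + T^(-8)` (`∑ x^j/j! ≤ e^(1/2) < 2`), so
`T^κ ≤ 2 + T^(2κ-8) ≤ 3`, a contradiction for large `T`. -/
def TAS_stmt : Prop := ∀ κ : ℝ, 0 < κ → κ ≤ 1 → ∃ T₀ : ℝ, ∀ T : ℝ, T₀ ≤ T →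
  ∀ (σ M : ℝ) (ρ : ℂ), 1 / 2 ≤ σ → 1 ≤ M → M ≤ T ^ 2 → σ ≤ ρ.re → ρ.re ≤ 1 →
  T ^ (-κ) ≤ ‖Ps M ρ‖ → ∃ j ∈ Finset.range (⌊16 * Real.log T⌋₊ + 1),
    M ^ σ * T ^ (-(2 * κ)) ≤ ‖Sz (wj σ j) M ρ.im‖

/-! ## Part 3: class two (smooth zeta sums of length between `T^(3/(8σ))` and `T`) -/

/-- **NUC** (medium, numbers). uses: nothing. `ε₁ = min (ε/4) (1/32)`, `δ₁ = min (ε/200) (1/200)`. `M^(σ-1/2) ≥ (T^(3/8))^(1/4) = T^(3/32)` and `3/32 - 4δ > 1/32` give the first claim for large `T`. `V^(-12) = K^12 T^(48δ) M^(-12(σ-1/2)) ≤ K^12 T^(48δ) T^(-(9/(2σ))(σ-1/2))`, and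
`2 - (9/(2σ))(σ-1/2) = (9-10σ)/(4σ) ≤ (6-6σ)/(4σ) = (3/(2σ))(1-σ)` since `σ ≥ 3/4`; `V^(-6)` in the same way, `1 - (9/(4σ))(σ-1/2) = (9-10σ)/(8σ) ≤ (12-12σ)/(8σ)`. `ε₁ + 48δ ≤ ε/2`. -/
def NUC_stmt : Prop := ∀ ε : ℝ, 0 < ε → ∃ ε₁ δ₁ : ℝ, 0 < ε₁ ∧ 0 < δ₁ ∧ δ₁ ≤ 1 / 16 ∧ ∀ δ K C₁ : ℝ, 0 < δ →
  δ ≤ δ₁ → 1 ≤ K → 0 < C₁ → ∃ C T₀ : ℝ, 0 < C ∧ ∀ T σ M : ℝ, T₀ ≤ T → 3 / 4 ≤ σ → σ ≤ 1 →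
  T ^ (3 / (8 * σ)) ≤ M → M ≤ T → ∀ V : ℝ, V = M ^ (σ - 1 / 2) * T ^ (-(4 * δ)) / K →
    T ^ ε₁ ≤ V ∧ C₁ * T ^ ε₁ * (T ^ 2 * V ^ (-12 : ℝ) + T * V ^ (-6 : ℝ)) ≤
      C * T ^ (ε / 2) * T ^ (3 / (2 * σ) * (1 - σ))

/-- **CLT** (medium). uses: LVZ_stmt, WCB_stmt, KLS_stmt, TAS_stmt, NUC_stmt. Class two, port of CL2. `δ₁, ε₁` from NUC. `M_i = (4/3)^i Y`, `i < J ≤ 8 log T` (`log (4/3) > 0.28`, `Y ≥ 1`). Blocks with `M_i ≥ T` (`M_i ≤ 2T²`): at most `C (2T²)^(1/4)/T` each (KLS), all together at most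
`T^(-δ)/8`. So for every `ρ ∈ W` some block with `M = M_i < T` has `‖Ps M ρ‖ ≥ T^(-δ)/(8J) ≥ T^(-2δ)`: TAS with `κ = 2δ`: some `j ≤ 16 log T` with `M^σ T^(-4δ) ≤ ‖Sz (wj σ j) M γ‖`. For fixed `(i, j)`: LVZ with `ε₁`, `w = wj σ j / K` (WCB; `Sz` is linear in `w`), `V = M^(σ-1/2) T^(-4δ)/K`
(`V M^(1/2) = M^σ T^(-4δ)/K`) for the ordinates of these `ρ`, and NUC. Number of the pairs `(i, j)`: `≤ 8 log T (16 log T + 1) ≤ C' T^(ε/2)`. -/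
def CLT_stmt : Prop := ∀ ε : ℝ, 0 < ε → ∃ δ₁ : ℝ, 0 < δ₁ ∧ ∀ δ : ℝ, 0 < δ → δ ≤ δ₁ →
  ∃ C T₀ : ℝ, 0 < C ∧ ∀ T σ : ℝ, T₀ ≤ T → 3 / 4 ≤ σ → σ ≤ 1 → ∀ J : ℕ,
  (4 / 3) ^ J * T ^ (3 / (8 * σ)) ≤ 2 * T ^ 2 → ∀ W : Finset ℂ,
  (∀ ρ ∈ W, σ ≤ ρ.re ∧ ρ.re ≤ 1 ∧ T ≤ ρ.im ∧ ρ.im ≤ 2 * T) →
  (∀ ρ ∈ W, ∀ ρ' ∈ W, ρ ≠ ρ' → 1 ≤ |ρ.im - ρ'.im|) →
  (∀ ρ ∈ W, 1 / 4 ≤ T ^ δ * ∑ i ∈ Finset.range J, ‖Ps ((4 / 3) ^ i * T ^ (3 / (8 * σ))) ρ‖) →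
  (W.card : ℝ) ≤ C * T ^ ε * T ^ (3 / (2 * σ) * (1 - σ))

/-! ## Part 4: class one (Dirichlet polynomials of length at most `2 T^(3/(8σ) + δ)`) -/

/-- **CPB** (short/medium). uses: nothing. Choice of the power; port of CPK. `B = 3/(4σ) ∈ [3/4, 1]`. `T` large: `N ≥ T^δ/2 ≥ T^(δ/2) > 1`, `k = ⌊(B + 3δ) log T/log N⌋₊`: `N^k ≤ T^(B+3δ) < N^(k+1)`. `N² ≤ 4 T^(B+2δ) ≤ T^(B+3δ)`, so `k ≥ 2`, `k/(k+1) ≥ 2/3` and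
`N^k = (N^(k+1))^(k/(k+1)) > T^((2/3)(B+3δ)) ≥ T^(2B/3) = T^(1/(2σ))`. `k ≤ (B+3δ)/(δ/2) ≤ 4/δ`. -/
def CPB_stmt : Prop := ∀ δ : ℝ, 0 < δ → δ ≤ 1 / 16 → ∃ T₀ : ℝ, ∀ T σ : ℝ, T₀ ≤ T → 3 / 4 ≤ σ → σ ≤ 1 →
  ∀ N : ℕ, T ^ δ / 2 ≤ (N : ℝ) → (N : ℝ) ≤ 2 * T ^ (3 / (8 * σ) + δ) →
  ∃ k : ℕ, 1 ≤ k ∧ (k : ℝ) ≤ 4 / δ ∧ T ^ (1 / (2 * σ)) ≤ (N : ℝ) ^ k ∧
    (N : ℝ) ^ k ≤ T ^ (3 / (4 * σ) + 3 * δ)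

/-- **NUB** (medium, numbers). uses: nothing. Port of NUM. `η = s₀ - 3/4 ≤ 1/4`, `ε' = min (ε/8) (η/8)`, `κ = δ min ε η / 1000`, `x = 16 κ/δ ≤ min ε η / 60`. (0) `M ≤ T`: `3/(4σ) ≤ 3/(3+4η) ≤ 1 - η` (`4η ≤ 1`) and `4δ ≤ η`. (1) `C₁ T^ε' M^(1/2) C₂ M T^x ≤ C₂⁻¹ M^(2σ) T^(-x) ≤ V²` because
`M^(2σ-3/2) ≥ (T^(1/2))^(2η) = T^η` (`1/(2σ) ≥ 1/2`) and `ε' + 2x < η` (`T` large). (2) `M G/V² ≤ C₂² M^(2-2σ) T^(2x)`, `M^(2-2σ) ≤ T^((3/(4σ)+4δ)(2-2σ)) ≤ T^((3/(2σ))(1-σ)) T^(2δ)`; `T^(1/2) M G²/V⁴ ≤ C₂⁴ T^(1/2) M^(3-4σ) T^(4x)`, `M^(3-4σ) ≤ T^((3-4σ)/(2σ))` (`3 - 4σ < 0`) and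
`1/2 + (3-4σ)/(2σ) = (3-3σ)/(2σ)`; `ε' + 4x + 2δ ≤ ε`. -/
def NUB_stmt : Prop := ∀ s₀ ε δ : ℝ, 3 / 4 < s₀ → s₀ ≤ 1 → 0 < ε → 0 < δ → δ ≤ ε / 8 →
  δ ≤ (s₀ - 3 / 4) / 4 → δ ≤ 1 / 16 → ∃ κ ε' : ℝ, 0 < κ ∧ κ ≤ 1 ∧ 0 < ε' ∧ ∀ C₁ C₂ : ℝ, 0 < C₁ → 0 < C₂ →
  ∃ C T₀ : ℝ, 0 < C ∧ ∀ T σ M G V : ℝ, T₀ ≤ T → s₀ ≤ σ → σ ≤ 1 →
  T ^ (1 / (2 * σ)) ≤ M → M ≤ T ^ (3 / (4 * σ) + 4 * δ) → 0 ≤ G → G ≤ C₂ * (M * T ^ (16 * κ / δ)) → 0 < V →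
  M ^ (2 * σ) * T ^ (-(16 * κ / δ)) ≤ C₂ * V ^ 2 →
    M ≤ T ∧ C₁ * T ^ ε' * M ^ (1 / 2 : ℝ) * G ≤ V ^ 2 ∧
    C₁ * T ^ ε' * (M * G / V ^ 2 + T ^ (1 / 2 : ℝ) * M * G ^ 2 / V ^ 4) ≤
      C * T ^ ε * T ^ (3 / (2 * σ) * (1 - σ))

/-- **CLI** (LONG). uses: LVS_stmt, CPB_stmt, PWB_stmt, NUB_stmt; library: `divisor_bound` (`helper59/DM/DV`). Class one, port of CL1 (`Pool/Agent/helper58/LDH/CL1.lean` when it is there). wlog `s₀ ≤ 1` (otherwise there is no `σ`). `δ₀ = min (ε/16) (min ((s₀-3/4)/4) (1/16))`; `κ, ε'` from NUB with `ε/2`. `k` from CPB (`k ≤ 4/δ`),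
PWB with `B = T^κ`, `V = N^σ T^(-2κ)`: the points of `W` lie in `k` sets `W_i`, on which `‖DP M b t‖ ≥ V₁ = V^k/k`, `M = 2^i N^k`. `T^(1/(2σ)) ≤ N^k ≤ M ≤ 2^k T^(3/(4σ)+3δ) ≤ T^(3/(4σ)+4δ)` (`2^(4/δ) ≤ T^δ` for large `T`). For `n ≤ 2M ≤ T³`:
`‖b n‖ ≤ T^(κk) d(n)^k ≤ C T^(8κ/δ)` (`divisor_bound` with `κ/3`: `d n ≤ C T^κ`, `d(n)^k ≤ C^k T^(κk)`, `κ k ≤ 4κ/δ`), so `G = ∑ ‖b n‖² ≤ C₂ M T^(16κ/δ)`. `V₁² = N^(2kσ) T^(-4κk)/k² ≥ (M/2^k)^(2σ) T^(-16κ/δ) δ²/16`.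
LVS with the interval length `T`, `T₁ = T` (`M ≤ T` by NUB), and NUB: `card W_i ≤ C T^(ε/2) T^((3/(2σ))(1-σ))`. The constants `2^k`, `k` are at most constants depending on `δ`. -/
def CLI_stmt : Prop := ∀ s₀ ε : ℝ, 3 / 4 < s₀ → 0 < ε → ∃ δ₀ : ℝ, 0 < δ₀ ∧ ∀ δ : ℝ, 0 < δ →
  δ ≤ δ₀ → ∃ κ C T₀ : ℝ, 0 < κ ∧ κ ≤ 1 ∧ 0 < C ∧ ∀ T σ : ℝ, T₀ ≤ T → s₀ ≤ σ → σ ≤ 1 →
  ∀ (N : ℕ) (a : ℕ → ℂ) (W : Finset ℝ), T ^ δ / 2 ≤ (N : ℝ) →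
  (N : ℝ) ≤ 2 * T ^ (3 / (8 * σ) + δ) → (∀ n ∈ Finset.Ioc N (2 * N), ‖a n‖ ≤ T ^ κ) →
  (∀ t ∈ W, T ≤ t ∧ t ≤ 2 * T) → (∀ s ∈ W, ∀ t ∈ W, s ≠ t → 1 ≤ |s - t|) →
  (∀ t ∈ W, (N : ℝ) ^ σ * T ^ (-(2 * κ)) ≤ ‖DP N a t‖) →
  (W.card : ℝ) ≤ C * T ^ ε * T ^ (3 / (2 * σ) * (1 - σ))

/-! ## Part 5: assembly -/

/-- **COB** (LONG). uses: SEP_stmt, DTS_stmt, MOS_stmt, CLI_stmt, CLT_stmt, TAZ_stmt, WTJ_stmt; library: `CR_dyadic`, `CR_cut` (`helper71/ED/CR`), `divisor_bound`. Port of COR (`Pool/Agent/helper98/LDH/COR.lean`, which may be imported for `COR_J2`). `δ` = minimum of `δ₀` (CLI with `ε/4`), `δ₁` (CLT with `ε/4`) and `1/16`; `κ` from CLI.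
SEP: `W`. `D = ⌊T^δ⌋₊` (`≥ T^δ/2`), `Y = T^(3/(8σ))` (`T^δ ≤ T^(3/8) ≤ Y ≤ T^(1/2)`), `J` minimal with `(4/3)^J Y ≥ T²` (`(4/3)^J Y ≤ (4/3) T²`). DTS: every `ρ ∈ W` is in class two (CLT) or `1/4 ≤ ‖∑ k ∈ Ioc D (D ⌊2Y⌋₊), cS…‖`. Class one: with the least `J'` such that
`2^J' ≥ ⌊2Y⌋₊` (`J' ≤ 4 log T`, `2^i < ⌊2Y⌋₊` for `i < J'`) and `c n = cS D Y n` for `n ≤ D ⌊2Y⌋₊`, `0` otherwise: some block `Ioc N (2N)`, `N = 2^i D` (so `T^δ/2 ≤ N ≤ 2 Y T^δ`) has norm `≥ 1/(4J') ≥ T^(-κ)`; `‖c n‖ ≤ d n ≤ C n^(κ/6) ≤ T^κ` (`n ≤ T³`, `T` large). TAZ: some `j ≤ 16 log T`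
with `N^σ T^(-2κ) ≤ ‖DP N (c ww) γ‖` (`|ww| ≤ 1`: WTJ); CLI for the ordinates of the `ρ` with given `(i, j)`. Number of pairs and the factor `C log T` of SEP: absorbed by `T^(ε/4)`. (`Re ρ < 1`.) -/
def COB_stmt : Prop := ∀ s₀ ε : ℝ, 3 / 4 < s₀ → 0 < ε → ∃ C T₀ : ℝ, 0 < C ∧ ∀ T σ : ℝ,
  T₀ ≤ T → s₀ ≤ σ → σ ≤ 1 → ∀ Z : Finset ℂ, Zer σ T Z →
    (Z.card : ℝ) ≤ C * T ^ ε * T ^ (3 / (2 * σ) * (1 - σ))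

/-- **FIB** (medium). uses: COB_stmt; library: `FN_low` (`helper97/ED/FN`), `mult_le` (`helper63/ED/LC`). Copy `Pool/Agent/helper1/DH/FIN.lean` and replace the exponent `2 * (1 - σ)` by `3 / (2 * σ) * (1 - σ)` (nonnegative for `σ ≤ 1`). -/
def FIB_stmt : Prop := ∀ s₀ ε : ℝ, 3 / 4 < s₀ → 0 < ε → ∃ C : ℝ, 0 < C ∧ ∀ T σ : ℝ, 1 ≤ T →
  s₀ ≤ σ → σ ≤ 1 → ∀ Z : Finset ℂ,
  (∀ ρ ∈ Z, riemannZeta ρ = 0 ∧ σ ≤ ρ.re ∧ 0 < ρ.im ∧ ρ.im ≤ T) →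
    ∑ ρ ∈ Z, (mult ρ : ℝ) ≤ C * T ^ (3 / (2 * σ) * (1 - σ) + ε)

end Pool.Agent.BEY
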